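import Pool.Agent.Helper68_Leo4.Basic

/-!
# Leo4, module FLD: the quartic fields `ℚ(φ, √(3m))`
-/

set_option autoImplicit false

open Module NumberField

namespace Pool.Agent.Leo4.H67

theorem nm_three_mul (y : O) : nm (3 * y) = 9 * nm y := by
  have h : (3 : O) = ((3 : ℤ) : O) := by norm_num
  rw [nm_mul, h, nm_intCast]
  norm_num

/-- `3 m y² = x²` is impossible. -/
theorem no_sq (h3 : Prime (3 : O)) {m : O} (hm : ¬ (3 : O) ∣ m) (n : ℕ) :
    ∀ x y : O, (nm y).natAbs ≤ n → y ≠ 0 → 3 * m * y ^ 2 ≠ x ^ 2 := by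
  induction n with
  | zero =>
    intro x y hy hy0
    exfalso
    have h1 := one_le_abs_nm hy0
    rw [Int.abs_eq_natAbs] at h1
    omega
  | succ n ih =>
    intro x y hy hy0 h
    have hx : (3 : O) ∣ x := h3.dvd_of_dvd_pow ⟨m * y ^ 2, by rw [← h]; ring⟩
    obtain ⟨x', rfl⟩ := hx
    have h1 : m * y ^ 2 = 3 * x' ^ 2 := by
      apply mul_left_cancel₀ h3.ne_zero
      linear_combination h
    have hy3 : (3 : O) ∣ y := by
      have h2 : (3 : O) ∣ m * y ^ 2 := ⟨x' ^ 2, h1⟩
      rcases h3.dvd_or_dvd h2 with h2 | h2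
      · exact absurd h2 hm
      · exact h3.dvd_of_dvd_pow h2
    obtain ⟨y', rfl⟩ := hy3
    have h2 : 3 * m * y' ^ 2 = x' ^ 2 := by
      apply mul_left_cancel₀ h3.ne_zero
      linear_combination h1
    have hy' : y' ≠ 0 := by
      rintro rfl
      exact hy0 (mul_zero _)
    refine ih x' y' ?_ hy' h2
    have h4 := one_le_abs_nm hy'
    rw [Int.abs_eq_natAbs] at h4
    rw [nm_three_mul] at hy
    omega

section gen

variable {K : Type} [Field K] [CharZero K]

theorem no_root (h3 : Prime (3 : O)) {m : O} (hm : ¬ (3 : O) ∣ m) {f r : K} (hf : f ^ 2 = f + 1)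
    (hr : r ^ 2 = 3 * ev f m) (x y : O) (hy : y ≠ 0) : ev f y * r ≠ ev f x := by
  intro h
  apply no_sq h3 hm _ x y le_rfl hy
  apply ev_inj hf
  rw [ev_mul hf, ev_mul hf, ev_pow hf, ev_pow hf, ev_ofNat, ← hr, ← h]
  ring

/-- The basis. -/
def vv (f θ : K) : Fin 4 → K := ![1, f, θ, f * θ]

theorem vv_indep [Algebra ℚ K] (h3 : Prime (3 : O)) {m ν : O} (hm : ¬ (3 : O) ∣ m) {f r θ : K}
    (hf : f ^ 2 = f + 1) (hr : r ^ 2 = 3 * ev f m) (hθ : 2 * θ = ev f ν + r) :
    LinearIndependent ℚ (vv f θ) := by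
  rw [Fintype.linearIndependent_iff]
  intro c hc
  obtain ⟨b, hb⟩ := IsLocalization.exist_integer_multiples_of_finite (nonZeroDivisors ℤ) c
  have hb0 : ((b : ℤ) : ℚ) ≠ 0 := by
    have := nonZeroDivisors.coe_ne_zero b
    exact_mod_cast this
  choose z hz using hb
  have hz' : ∀ i, ((z i : ℤ) : ℚ) = (b : ℤ) * c i := by
    intro i
    have h := hz i
    rw [eq_intCast] at h
    rw [h, zsmul_eq_mul]
  have hsum : (z 0 : K) + z 1 * f + (z 2 + z 3 * f) * θ = 0 := by
    have h2 : ∀ i, ((z i : ℤ) : K) = ((b : ℤ) : K) * (c i : K) := by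
      intro i
      have h := congrArg (Rat.cast : ℚ → K) (hz' i)
      push_cast at h
      exact h
    rw [Fin.sum_univ_four] at hc
    simp only [vv, Matrix.cons_val_zero, Matrix.cons_val_one, Matrix.cons_val, Algebra.smul_def,
      eq_ratCast] at hc
    rw [h2 0, h2 1, h2 2, h2 3]
    linear_combination ((b : ℤ) : K) * hc
  set Y : O := ⟨z 2, z 3⟩ with hY
  set Z : O := ⟨z 0, z 1⟩ with hZ
  have hsum2 : ev f Z + ev f Y * θ = 0 := by
    simp only [ev, hY, hZ]
    exact hsum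
  have hY0 : Y = 0 := by
    by_contra hY0
    apply no_root h3 hm hf hr (-(2 * Z + Y * ν)) Y hY0
    rw [ev_neg, ev_add, ev_mul hf, ev_mul hf, ev_ofNat]
    linear_combination 2 * hsum2 - ev f Y * hθ
  have hZ0 : Z = 0 := by
    apply ev_inj hf
    rw [hY0] at hsum2
    rw [ev_zero, zero_mul, add_zero] at hsum2
    rw [hsum2, ev_zero]
  have hz0 : ∀ i, z i = 0 := by
    have e0 : z 0 = 0 := congrArg QuadraticAlgebra.re hZ0
    have e1 : z 1 = 0 := congrArg QuadraticAlgebra.im hZ0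
    have e2 : z 2 = 0 := congrArg QuadraticAlgebra.re hY0
    have e3 : z 3 = 0 := congrArg QuadraticAlgebra.im hY0
    intro i
    fin_cases i
    · exact e0
    · exact e1
    · exact e2
    · exact e3
  intro i
  have h := hz' i
  rw [hz0 i, Int.cast_zero] at h
  exact (mul_eq_zero.1 h.symm).resolve_left hb0

/-- The structure constants. -/
def st (a b u v : ℚ) : Fin 4 → Fin 4 → Fin 4 → ℚ :=
  ![![![1, 0, 0, 0], ![0, 1, 0, 0], ![0, 0, 1, 0], ![0, 0, 0, 1]],
    ![![0, 1, 0, 0], ![1, 1, 0, 0], ![0, 0, 0, 1], ![0, 0, 1, 1]],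
    ![![0, 0, 1, 0], ![0, 0, 0, 1], ![-u, -v, a, b], ![-v, -(u + v), b, a + b]],
    ![![0, 0, 0, 1], ![0, 0, 1, 1], ![-v, -(u + v), b, a + b],
      ![-(u + v), -(u + 2 * v), a + b, a + 2 * b]]]

theorem vv_mul [Algebra ℚ K] {ν n : O} {f θ : K} (hf : f ^ 2 = f + 1)
    (hθ : θ ^ 2 = ev f ν * θ - ev f n) (k j : Fin 4) :
    vv f θ k * vv f θ j = ∑ l, st ν.re ν.im n.re n.im k j l • vv f θ l := by
  rw [ev, ev] at hθ
  rw [Fin.sum_univ_four]
  fin_cases k <;> fin_cases j <;>
    simp [vv, st, Algebra.smul_def] <;>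
    first
      | ring1
      | linear_combination hf
      | linear_combination θ * hf
      | linear_combination hθ
      | linear_combination f * hθ + ((ν.im : K) * θ - n.im) * hf
      | linear_combination f ^ 2 * hθ + ((ν.im : K) * θ * (f + 1) - n.im * (f + 1) +
          (ν.re * θ - n.re)) * hf

end gen

section nf

variable {K : Type} [Field K] [NumberField K]

theorem tr_vv (h3 : Prime (3 : O)) {m ν n : O} (hm : ¬ (3 : O) ∣ m) {f r θ : K}
    (h4 : finrank ℚ K = 4) (hf : f ^ 2 = f + 1) (hr : r ^ 2 = 3 * ev f m)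
    (hθ : 2 * θ = ev f ν + r) (hθ2 : θ ^ 2 = ev f ν * θ - ev f n) (k : Fin 4) :
    Algebra.trace ℚ K (vv f θ k) = ∑ i, st ν.re ν.im n.re n.im k i i := by
  have hli : LinearIndependent ℚ (vv f θ) := vv_indep h3 hm hf hr hθ
  let B := basisOfLinearIndependentOfCardEqFinrank hli (by rw [h4, Fintype.card_fin])
  have hB : ⇑B = vv f θ := coe_basisOfLinearIndependentOfCardEqFinrank _ _
  rw [Algebra.trace_eq_matrix_trace B, Matrix.trace]
  refine Finset.sum_congr rfl fun i _ => ?_
  rw [Matrix.diag_apply, Algebra.leftMulMatrix_eq_repr_mul, hB, vv_mul hf hθ2 k i, ← hB]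
  have h5 := B.repr_sum_self (st ν.re ν.im n.re n.im k i)
  rw [h5]

/-- The determinant of the trace matrix. -/
theorem det_st (a b u v : ℚ) :
    (Matrix.of fun i j => ∑ l, st a b u v i j l * ∑ t, st a b u v l t t).det =
      25 * ((a ^ 2 + b ^ 2 - 4 * u) ^ 2 + (a ^ 2 + b ^ 2 - 4 * u) * (2 * a * b + b ^ 2 - 4 * v) -
        (2 * a * b + b ^ 2 - 4 * v) ^ 2) := by
  have h : (Matrix.of fun i j => ∑ l, st a b u v i j l * ∑ t, st a b u v l t t) =
      !![4, 2, 2 * a + b, a + 3 * b;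
        2, 6, a + 3 * b, 3 * a + 4 * b;
        2 * a + b, a + 3 * b, -4 * u - 2 * v + a * (2 * a + b) + b * (a + 3 * b),
          -4 * v - 2 * (u + v) + b * (2 * a + b) + (a + b) * (a + 3 * b);
        a + 3 * b, 3 * a + 4 * b, -4 * v - 2 * (u + v) + b * (2 * a + b) + (a + b) * (a + 3 * b),
          -4 * (u + v) - 2 * (u + 2 * v) + (a + b) * (2 * a + b) + (a + 2 * b) * (a + 3 * b)] := by
    ext i j
    fin_cases i <;> fin_cases j <;>
      simp [st, Fin.sum_univ_four] <;> ring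
  rw [h, Matrix.det_succ_row_zero]
  simp [Fin.sum_univ_succ, Matrix.det_fin_three, Fin.succAbove, Matrix.submatrix_apply]
  ring

theorem discQ (h3 : Prime (3 : O)) {m ν n : O} (hm : ¬ (3 : O) ∣ m) {f r θ : K}
    (h4 : finrank ℚ K = 4) (hf : f ^ 2 = f + 1) (hr : r ^ 2 = 3 * ev f m)
    (hθ : 2 * θ = ev f ν + r) (hθ2 : θ ^ 2 = ev f ν * θ - ev f n) (hd : ν ^ 2 - 4 * n = 3 * m) :
    Algebra.discr ℚ (vv f θ) = 225 * nm m ∧ (225 * nm m : ℚ) ≠ 0 := by
  have h1 : Algebra.discr ℚ (vv f θ) = 225 * nm m := by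
    rw [Algebra.discr_def]
    have h2 : Algebra.traceMatrix ℚ (vv f θ) =
        Matrix.of fun i j => ∑ l, st ν.re ν.im n.re n.im i j l *
          ∑ t, st ν.re ν.im n.re n.im l t t := by
      ext i j
      rw [Algebra.traceMatrix_apply, Algebra.traceForm_apply, Matrix.of_apply, vv_mul hf hθ2 i j,
        map_sum]
      refine Finset.sum_congr rfl fun l _ => ?_
      rw [map_smul, tr_vv h3 hm h4 hf hr hθ hθ2 l, smul_eq_mul]
    rw [h2, det_st]
    have h5 : nm (ν ^ 2 - 4 * n) = 9 * nm m := by rw [hd, nm_three_mul]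
    have h6 : ν ^ 2 - 4 * n = ⟨ν.re ^ 2 + ν.im ^ 2 - 4 * n.re,
        2 * ν.re * ν.im + ν.im ^ 2 - 4 * n.im⟩ := by
      have h7 : (4 : O) = ⟨4, 0⟩ := rfl
      rw [h7]
      ext
      · simp [sq]
      · simp [sq]
        ring
    rw [h6] at h5
    have h8 := congrArg (Int.cast : ℤ → ℚ) h5
    simp only [nm] at h8
    push_cast at h8
    simp only [nm]
    push_cast
    linear_combination 25 * h8
  refine ⟨h1, ?_⟩
  have hli : LinearIndependent ℚ (vv f θ) := vv_indep h3 hm hf hr hθ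
  let B := basisOfLinearIndependentOfCardEqFinrank hli (by rw [h4, Fintype.card_fin])
  have hB : ⇑B = vv f θ := coe_basisOfLinearIndependentOfCardEqFinrank _ _
  have h2 := Algebra.discr_not_zero_of_basis ℚ B
  rw [hB, h1] at h2
  exact h2

omit [NumberField K] in
theorem ev_int {f : K} (hf : f ^ 2 = f + 1) (x : O) : IsIntegral ℤ (ev f x) := by
  have hfi : IsIntegral ℤ f := by
    refine ⟨Polynomial.X ^ 2 - Polynomial.X - 1, by monicity!, ?_⟩
    simp [hf]
  rw [ev]
  exact (isIntegral_algebraMap (R := ℤ) (A := K) (x := x.re)).add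
    ((isIntegral_algebraMap (R := ℤ) (A := K) (x := x.im)).mul hfi)

theorem disc_gen (h3 : Prime (3 : O)) {m ν n : O} (hm : ¬ (3 : O) ∣ m) {f r θ : K}
    (h4 : finrank ℚ K = 4) (hf : f ^ 2 = f + 1) (hr : r ^ 2 = 3 * ev f m)
    (hθ : 2 * θ = ev f ν + r) (hθ2 : θ ^ 2 = ev f ν * θ - ev f n) (hd : ν ^ 2 - 4 * n = 3 * m) :
    ∃ d : ℤ, d ≠ 0 ∧ d ^ 2 * discr K = 225 * nm m := by
  have hfi : IsIntegral ℤ f := by
    have := ev_int hf phi
    rwa [ev_phi] at this
  have hθi : IsIntegral ℤ θ := by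
    have h1 : IsIntegral ℤ (2 * θ - ev f ν) := by
      have h2 : 2 * θ - ev f ν = r := by rw [hθ]; ring
      rw [h2]
      have h3' : IsIntegral ℤ (r ^ 2) := by
        rw [hr]
        have h5 := ev_int hf (3 * m)
        rwa [ev_mul hf, ev_ofNat] at h5
      exact IsIntegral.of_pow two_pos h3'
    have h2 : IsIntegral ℤ (θ * (θ - ev f ν)) := by
      have h5 : θ * (θ - ev f ν) = ev f (-n) := by
        rw [ev_neg]
        linear_combination hθ2
      rw [h5]
      exact ev_int hf _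
    -- `θ` is a root of a monic polynomial over the integral closure
    have h6 : IsIntegral (integralClosure ℤ K) θ := by
      refine ⟨Polynomial.X ^ 2 - Polynomial.C (⟨ev f ν, ev_int hf ν⟩ : integralClosure ℤ K) *
        Polynomial.X + Polynomial.C (⟨ev f n, ev_int hf n⟩ : integralClosure ℤ K), by monicity!, ?_⟩
      simp only [Polynomial.eval₂_add, Polynomial.eval₂_sub, Polynomial.eval₂_mul,
        Polynomial.eval₂_X_pow, Polynomial.eval₂_X, Polynomial.eval₂_C]
      change θ ^ 2 - ev f ν * θ + ev f n = 0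
      linear_combination hθ2
    exact isIntegral_trans θ h6
  have hI : ∀ i, IsIntegral ℤ (vv f θ i) := by
    intro i
    fin_cases i
    · exact isIntegral_one
    · exact hfi
    · exact hθi
    · exact hfi.mul hθi
  let v : Fin 4 → 𝓞 K := fun i => ⟨vv f θ i, hI i⟩
  have hfr : finrank ℤ (𝓞 K) = 4 := by rw [RingOfIntegers.rank, h4]
  let β : Basis (Fin 4) ℤ (𝓞 K) := finBasisOfFinrankEq ℤ (𝓞 K) hfr
  have hdisc : Algebra.discr ℤ v = (β.toMatrix v).det ^ 2 * NumberField.discr K := by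
    have h1 := Algebra.discr_of_matrix_vecMul (A := ℤ) (β : Fin 4 → 𝓞 K) (β.toMatrix v)
    rw [β.toMatrix_map_vecMul v] at h1
    rw [h1, NumberField.discr_eq_discr K β]
  obtain ⟨hq, hne⟩ := discQ h3 hm h4 hf hr hθ hθ2 hd
  have hQ : ((Algebra.discr ℤ v : ℤ) : ℚ) = 225 * nm m := by
    rw [← hq, Algebra.discr_def, Algebra.discr_def]
    have h1 : ((Algebra.traceMatrix ℤ v).det : ℚ) =
        ((Algebra.traceMatrix ℤ v).map (Int.cast : ℤ → ℚ)).det := by
      exact (Int.castRingHom ℚ).map_det _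
    have h2 : (Algebra.traceMatrix ℤ v).map (Int.cast : ℤ → ℚ) =
        Algebra.traceMatrix ℚ (vv f θ) := by
      ext i j
      rw [Matrix.map_apply, Algebra.traceMatrix_apply, Algebra.traceForm_apply,
        Algebra.coe_trace_int, Algebra.traceMatrix_apply, Algebra.traceForm_apply]
      rfl
    rw [h1, h2]
  refine ⟨(β.toMatrix v).det, ?_, ?_⟩
  · intro h0
    rw [hdisc, h0] at hQ
    apply hne
    rw [← hQ]
    push_cast
    ring
  · rw [hdisc] at hQ
    exact_mod_cast hQ

open ComplexConjugate in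
theorem real_gen (h3 : Prime (3 : O)) {m ν : O} (hm : ¬ (3 : O) ∣ m) {f r θ : K}
    (h4 : finrank ℚ K = 4) (hf : f ^ 2 = f + 1) (hr : r ^ 2 = 3 * ev f m)
    (hθ : 2 * θ = ev f ν + r)
    (hp1 : 0 < e1 m) (hp2 : 0 < e2 m) : IsTotallyReal K := by
  have hli : LinearIndependent ℚ (vv f θ) := vv_indep h3 hm hf hr hθ
  let B := basisOfLinearIndependentOfCardEqFinrank hli (by rw [h4, Fintype.card_fin])
  have hB : ⇑B = vv f θ := coe_basisOfLinearIndependentOfCardEqFinrank _ _
  refine ⟨fun w => ?_⟩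
  rw [InfinitePlace.isReal_iff, ComplexEmbedding.isReal_iff]
  set φ := w.embedding with hφ
  -- the images of `f` and `r`
  have hzf : φ f ^ 2 = φ f + 1 := by rw [← map_pow, hf, map_add, map_one]
  have hz : φ f = ((Real.goldenRatio : ℝ) : ℂ) ∨ φ f = ((Real.goldenConj : ℝ) : ℂ) := by
    have h1 : (φ f - ((Real.goldenRatio : ℝ) : ℂ)) * (φ f - ((Real.goldenConj : ℝ) : ℂ)) = 0 := by
      have h2 : ((Real.goldenRatio : ℝ) : ℂ) + ((Real.goldenConj : ℝ) : ℂ) = 1 := by
        exact_mod_cast Real.goldenRatio_add_goldenConj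
      have h5 : ((Real.goldenRatio : ℝ) : ℂ) * ((Real.goldenConj : ℝ) : ℂ) = -1 := by
        exact_mod_cast Real.goldenRatio_mul_goldenConj
      linear_combination hzf - φ f * h2 + h5
    rcases mul_eq_zero.1 h1 with h | h
    · exact Or.inl (sub_eq_zero.1 h)
    · exact Or.inr (sub_eq_zero.1 h)
  have hcf : conj (φ f) = φ f := by
    rcases hz with h | h <;> rw [h, Complex.conj_ofReal]
  have hwr : φ r ^ 2 = 3 * ev (φ f) m := by
    rw [← map_pow, hr, map_mul, map_ev, map_ofNat]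
  have hs : ∃ s : ℝ, 0 < s ∧ φ r ^ 2 = (s : ℂ) := by
    rcases hz with h | h
    · refine ⟨3 * e1 m, by positivity, ?_⟩
      rw [hwr, h]
      simp only [e1, ev]
      push_cast
      ring
    · refine ⟨3 * e2 m, by positivity, ?_⟩
      rw [hwr, h]
      simp only [e2, ev]
      push_cast
      ring
  have hcr : conj (φ r) = φ r := by
    obtain ⟨s, hs0, hs⟩ := hs
    have h1 : (φ r - ((Real.sqrt s : ℝ) : ℂ)) * (φ r + ((Real.sqrt s : ℝ) : ℂ)) = 0 := by
      have h2 : ((Real.sqrt s : ℝ) : ℂ) ^ 2 = (s : ℂ) := by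
        exact_mod_cast Real.sq_sqrt hs0.le
      linear_combination hs - h2
    rcases mul_eq_zero.1 h1 with h | h
    · rw [sub_eq_zero.1 h, Complex.conj_ofReal]
    · rw [eq_neg_of_add_eq_zero_left h, map_neg, Complex.conj_ofReal]
  have hcθ : conj (φ θ) = φ θ := by
    have h1 : 2 * φ θ = ev (φ f) ν + φ r := by
      have h2 := congrArg φ hθ
      rwa [map_mul, map_ofNat, map_add, map_ev] at h2
    have h2 := congrArg conj h1
    rw [map_mul, map_ofNat, map_add, map_ev, hcf, hcr] at h2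
    exact mul_left_cancel₀ two_ne_zero (h2.trans h1.symm)
  have hcv : ∀ i, conj (φ (vv f θ i)) = φ (vv f θ i) := by
    intro i
    fin_cases i
    · change conj (φ 1) = φ 1
      rw [map_one, map_one]
    · exact hcf
    · exact hcθ
    · change conj (φ (f * θ)) = φ (f * θ)
      rw [map_mul, map_mul, hcf, hcθ]
  ext x
  rw [ComplexEmbedding.conjugate_coe_eq]
  rw [← B.sum_repr x, hB]
  simp only [Algebra.smul_def, eq_ratCast, map_sum, map_mul, map_ratCast, hcv]

/-- the general form of FLD -/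
theorem fld_gen (h3 : Prime (3 : O)) {m : O} (hG : Good m) {f r : K}
    (h4 : finrank ℚ K = 4) (hf : f ^ 2 = f + 1) (hr : r ^ 2 = 3 * ev f m) :
    IsTotallyReal K ∧ 0 < discr K ∧ (discr K : ℝ) ≤ 225 * nm m := by
  have hm : ¬ (3 : O) ∣ m := by
    have h := hG.cls.three 0
    rwa [zero_pow two_ne_zero, sub_zero] at h
  obtain ⟨ν, c, hc, -⟩ := hG.cls.two
  set n : O := ν ^ 2 - 3 * c with hn
  set θ : K := (ev f ν + r) / 2 with hθd
  have hθ : 2 * θ = ev f ν + r := by
    rw [hθd]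
    field_simp
  have hd : ν ^ 2 - 4 * n = 3 * m := by
    rw [hn]
    linear_combination -3 * hc
  have hθ2 : θ ^ 2 = ev f ν * θ - ev f n := by
    have h1 : ev f ν ^ 2 - 4 * ev f n = 3 * ev f m := by
      have h2 := congrArg (ev f) hd
      rwa [ev_sub, ev_pow hf, ev_mul hf, ev_mul hf, ev_ofNat, ev_ofNat] at h2
    rw [hθd]
    linear_combination (hr - h1) / 4
  obtain ⟨d, hd0, hdd⟩ := disc_gen h3 hm h4 hf hr hθ hθ2 hd
  have hp1 := hG.pos1
  have hp2 := hG.pos2
  have hnm : 0 < nm m := by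
    have h1 : (0 : ℝ) < nm m := by
      rw [nm_eq]
      positivity
    exact_mod_cast h1
  have hd2 : 0 < d ^ 2 := by positivity
  have hdK : 0 < discr K := by
    have h1 : 0 < d ^ 2 * discr K := by
      rw [hdd]
      positivity
    exact pos_of_mul_pos_right h1 hd2.le
  refine ⟨real_gen h3 hm h4 hf hr hθ hp1 hp2, hdK, ?_⟩
  have h1 : discr K ≤ 225 * nm m := by
    rw [← hdd]
    nlinarith
  exact_mod_cast h1

end nf

/-! ### the field `Km m` -/

theorem span_mul {K : Type} [Field K] [Algebra ℚ K] (v : Fin 4 → K) (c : Fin 4 → Fin 4 → Fin 4 → ℚ)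
    (hv : ∀ i j, v i * v j = ∑ l, c i j l • v l) (x y : K)
    (hx : x ∈ Submodule.span ℚ (Set.range v)) (hy : y ∈ Submodule.span ℚ (Set.range v)) :
    x * y ∈ Submodule.span ℚ (Set.range v) := by
  obtain ⟨a, rfl⟩ := (Submodule.mem_span_range_iff_exists_fun ℚ).1 hx
  obtain ⟨b, rfl⟩ := (Submodule.mem_span_range_iff_exists_fun ℚ).1 hy
  rw [Finset.sum_mul_sum]
  refine Submodule.sum_mem _ fun i _ => Submodule.sum_mem _ fun j _ => ?_
  rw [smul_mul_smul_comm]
  refine Submodule.smul_mem _ _ ?_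
  rw [hv]
  exact Submodule.sum_mem _ fun l _ =>
    Submodule.smul_mem _ _ (Submodule.subset_span (Set.mem_range_self l))

theorem fld (hO : OkrStmt) : FldStmt := by
  intro m hG
  have h3 : Prime (3 : O) := hO.2.2.2.1
  have hm : ¬ (3 : O) ∣ m := by
    have h := hG.cls.three 0
    rwa [zero_pow two_ne_zero, sub_zero] at h
  obtain ⟨ν, c, hc, -⟩ := hG.cls.two
  set n : O := ν ^ 2 - 3 * c with hn
  have hf : Real.goldenRatio ^ 2 = Real.goldenRatio + 1 := gold_sq
  set r : ℝ := Real.sqrt (3 * e1 m) with hrd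
  have hr : r ^ 2 = 3 * ev Real.goldenRatio m := by
    rw [hrd, Real.sq_sqrt (by have := hG.pos1; positivity)]
    rfl
  set θ : ℝ := (ev Real.goldenRatio ν + r) / 2 with hθd
  have hθ : 2 * θ = ev Real.goldenRatio ν + r := by
    rw [hθd]
    field_simp
  have hd : ν ^ 2 - 4 * n = 3 * m := by
    rw [hn]
    linear_combination -3 * hc
  have hθ2 : θ ^ 2 = ev Real.goldenRatio ν * θ - ev Real.goldenRatio n := by
    have h1 : ev Real.goldenRatio ν ^ 2 - 4 * ev Real.goldenRatio n =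
        3 * ev Real.goldenRatio m := by
      have h2 := congrArg (ev Real.goldenRatio) hd
      rwa [ev_sub, ev_pow hf, ev_mul hf, ev_mul hf, ev_ofNat, ev_ofNat] at h2
    rw [hθd]
    linear_combination (hr - h1) / 4
  set v : Fin 4 → ℝ := vv Real.goldenRatio θ with hv
  have hli : LinearIndependent ℚ v := vv_indep h3 hm hf hr hθ
  have hmul : ∀ x y, x ∈ Submodule.span ℚ (Set.range v) → y ∈ Submodule.span ℚ (Set.range v) →
      x * y ∈ Submodule.span ℚ (Set.range v) :=
    fun x y hx hy => span_mul v _ (vv_mul hf hθ2) x y hx hy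
  have hmem : ∀ i, v i ∈ Submodule.span ℚ (Set.range v) := fun i =>
    Submodule.subset_span (Set.mem_range_self i)
  have hone : (1 : ℝ) ∈ Submodule.span ℚ (Set.range v) := hmem 0
  set S : Subalgebra ℚ ℝ := Submodule.toSubalgebra (Submodule.span ℚ (Set.range v)) hone hmul
    with hS
  have hgS : Real.goldenRatio ∈ S := hmem 1
  have hθS : θ ∈ S := hmem 2
  have hevS : ∀ x : O, ev Real.goldenRatio x ∈ S := by
    intro x
    rw [ev]
    exact S.add_mem (intCast_mem S _) (S.mul_mem (intCast_mem S _) hgS)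
  have hrS : r ∈ S := by
    have h1 : r = 2 * θ - ev Real.goldenRatio ν := by rw [hθ]; ring
    rw [h1]
    exact S.sub_mem (S.mul_mem (ofNat_mem S 2) hθS) (hevS ν)
  have hgK : Real.goldenRatio ∈ Km m :=
    IntermediateField.subset_adjoin ℚ _ (Set.mem_insert _ _)
  have hrK : r ∈ Km m :=
    IntermediateField.subset_adjoin ℚ _ (Set.mem_insert_of_mem _ rfl)
  have hevK : ∀ x : O, ev Real.goldenRatio x ∈ Km m := by
    intro x
    rw [ev]
    exact (Km m).add_mem (intCast_mem _ _) ((Km m).mul_mem (intCast_mem _ _) hgK)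
  have hθK : θ ∈ Km m := (Km m).div_mem ((Km m).add_mem (hevK ν) hrK) (ofNat_mem _ 2)
  have hvK : ∀ i, v i ∈ Km m := by
    intro i
    fin_cases i
    · exact (Km m).one_mem
    · exact hgK
    · exact hθK
    · exact (Km m).mul_mem hgK hθK
  -- algebraicity
  have hgA : IsAlgebraic ℚ Real.goldenRatio := by
    refine ⟨Polynomial.X ^ 2 - Polynomial.X - 1, ?_, ?_⟩
    · intro h0
      have := congrArg (fun p : Polynomial ℚ => p.coeff 0) h0
      simp [Polynomial.coeff_one, Polynomial.coeff_X] at this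
    · simp [hf]
  have hrA : IsAlgebraic ℚ r := by
    have h1 : IsAlgebraic ℚ (r ^ 2) := by
      rw [hr, ev]
      have h2 : ∀ z : ℤ, IsAlgebraic ℚ (z : ℝ) := fun z => isAlgebraic_intCast z
      exact (isAlgebraic_natCast 3).mul ((h2 _).add ((h2 _).mul hgA))
    exact IsAlgebraic.of_pow two_pos h1
  have hKS : (Km m).toSubalgebra = S := by
    apply le_antisymm
    · have h1 : (Km m).toSubalgebra =
          Algebra.adjoin ℚ {Real.goldenRatio, Real.sqrt (3 * e1 m)} := by
        apply IntermediateField.adjoin_toSubalgebra_of_isAlgebraic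
        rintro x (rfl | hx)
        · exact hgA
        · rw [Set.mem_singleton_iff.1 hx]
          exact hrA
      rw [h1]
      apply Algebra.adjoin_le
      rintro x (rfl | hx)
      · exact hgS
      · rw [Set.mem_singleton_iff.1 hx]
        exact hrS
    · intro x hx
      have h1 : x ∈ Submodule.span ℚ (Set.range v) := hx
      obtain ⟨a, rfl⟩ := (Submodule.mem_span_range_iff_exists_fun ℚ).1 h1
      change _ ∈ Km m
      exact sum_mem fun i _ => (Km m).smul_mem (hvK i)
  have hfin : finrank ℚ (Km m) = 4 := by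
    have h1 : Subalgebra.toSubmodule (Km m).toSubalgebra = Submodule.span ℚ (Set.range v) := by
      rw [hKS]
      rfl
    have h2 : finrank ℚ (Subalgebra.toSubmodule (Km m).toSubalgebra) = 4 := by
      rw [h1, finrank_span_eq_card hli, Fintype.card_fin]
    exact h2
  have hFD : FiniteDimensional ℚ (Km m) := FiniteDimensional.of_finrank_pos (by rw [hfin]; norm_num)
  have hNF : NumberField (Km m) := { to_charZero := inferInstance, to_finiteDimensional := hFD }
  set f' : Km m := ⟨Real.goldenRatio, hgK⟩ with hf'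
  set r' : Km m := ⟨r, hrK⟩ with hr'
  have hf2 : f' ^ 2 = f' + 1 := by
    apply Subtype.ext
    exact hf
  have hev : ∀ x : O, ((ev f' x : Km m) : ℝ) = ev Real.goldenRatio x := by
    intro x
    exact map_ev (algebraMap (Km m) ℝ) f' x
  have hr2 : r' ^ 2 = 3 * ev f' m := by
    apply Subtype.ext
    have h1 : ((r' ^ 2 : Km m) : ℝ) = r ^ 2 := rfl
    have h2 : ((3 * ev f' m : Km m) : ℝ) = 3 * ev Real.goldenRatio m := by
      rw [← hev m]
      rfl
    rw [h1, h2, hr]
  obtain ⟨h5, h6, h7⟩ := fld_gen h3 hG hfin hf2 hr2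
  exact ⟨hNF, hfin, h5, h6, h7, f', r', hf2, hr2⟩

end Pool.Agent.Leo4.H67
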